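import Pool.Agent.MP_52bf41_ag.H53.UnivAlg

/-! The universal family over the locus of tails, its sections and the group action. -/

open AlgebraicGeometry CategoryTheory Limits Matrix

namespace Pool.Agent.MP_52bf41_ag.H53

open H1 H12

theorem exists_pt {T : Scheme.{0}} {U : T.Opens} {x : T} (hx : x ∈ U) :
    ∃ (K : Type) (_ : Field K) (_ : IsAlgClosed K) (ψ : Γ(T, U) →+* K),
      ∀ b, ψ b = 0 ↔ x ∉ T.basicOpen b := by
  refine ⟨AlgebraicClosure (T.residueField x), inferInstance, inferInstance,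
    (algebraMap (T.residueField x) _).comp (T.evaluation U x hx).hom, fun b => ?_⟩
  rw [RingHom.comp_apply, map_eq_zero_iff _ (algebraMap (T.residueField x) _).injective]
  exact T.evaluation_eq_zero_iff_notMem_basicOpen x hx b

theorem basicOpen_pb {A : Type} [CommRing A] {T : Scheme.{0}} (p : T ⟶ Spec (.of A)) (f : A) :
    T.basicOpen (pb p f) = p ⁻¹ᵁ PrimeSpectrum.basicOpen f := by
  rw [← basicOpen_eq_of_affine (R := .of A) f, Scheme.preimage_basicOpen]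
  rfl

variable {D : ℕ}

theorem mem_tails_pt {T : Scheme.{0}} (p : T ⟶ Spec (.of (BB D))) {x : T} {K : Type} [Field K]
    [IsAlgClosed K] {ψ : Γ(T, ⊤) →+* K} (hψ : ∀ b, ψ b = 0 ↔ x ∉ T.basicOpen b) :
    p x ∈ Tails ℂ D 0 ↔ Eig (mat (ψ.comp (pb p))) := by
  refine tails_iff _ (Ideal.ext fun f => ?_)
  rw [RingHom.mem_ker, RingHom.comp_apply, hψ, basicOpen_pb]
  exact not_not

theorem unimod_iff {κ : Type} {T : Scheme.{0}} {O : T.Opens} {y : κ → Γ(T, O)} :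
    Unimod y ↔ ∀ x ∈ O, ∃ k, x ∈ T.basicOpen (y k) :=
  ⟨fun h _ hx => TopologicalSpace.Opens.mem_iSup.mp (h hx),
    fun h x hx => TopologicalSpace.Opens.mem_iSup.mpr (h x hx)⟩

theorem unimod_actv {T : Scheme.{0}} {O : T.Opens} {y : Option (Fin (D + 1)) → Γ(T, O)}
    (hy : Unimod y) {g : Matrix (Fin (D + 1)) (Fin (D + 1)) Γ(T, O)} (hg : Fix g)
    (M : Matrix (Fin D) (Fin (D + 1)) Γ(T, O)) : Unimod (actv g M y) := by
  rw [unimod_iff] at hy ⊢
  intro x hx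
  obtain ⟨K, _, _, ψ, hψ⟩ := exists_pt hx
  obtain ⟨k, hk⟩ := hy x hx
  by_contra h
  have h1 : (fun k => ψ (actv g M y k)) = 0 := funext fun k => (hψ _).mpr fun h' => h ⟨k, h'⟩
  rw [actv_map] at h1
  exact (hψ _).mp (congrFun (eq_zero_of_actv ((inP_of_fix hg).map ψ) h1) k) hk

theorem rep_of_cover {B κ : Type} [CommRing B] {E : Set (MvPolynomial κ B)} {𝒜 : Atlas B κ E}
    {T : Scheme.{0}} {c : T ⟶ 𝒜.C} {O : T.Opens} {y : κ → Γ(T, O)} {ι : Type}
    (W : ι → T.Opens) (hW : ∀ i, W i ≤ O) (hc : O ≤ iSup W)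
    (h : ∀ i, 𝒜.Rep c (W i) fun k => res (hW i) (y k)) : 𝒜.Rep c O y := by
  intro k
  have h1 : T.basicOpen (y k) = O ⊓ c ⁻¹ᵁ 𝒜.Dk k := by
    ext x
    constructor
    · intro hx
      have hxO := T.basicOpen_le _ hx
      obtain ⟨i, hi⟩ := TopologicalSpace.Opens.mem_iSup.mp (hc hxO)
      exact ⟨hxO, ((h i k).1.le ((mem_basicOpen_res (hW i) _ hi).mpr hx)).2⟩
    · intro hx
      obtain ⟨i, hi⟩ := TopologicalSpace.Opens.mem_iSup.mp (hc hx.1)
      exact (mem_basicOpen_res (hW i) _ hi).mp ((h i k).1.ge ⟨hi, hx.2⟩)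
  refine ⟨h1, fun l => eq_of_local fun x hx => ?_⟩
  obtain ⟨i, hi⟩ := TopologicalSpace.Opens.mem_iSup.mp (hc (T.basicOpen_le _ hx))
  refine ⟨T.basicOpen (res (hW i) (y k)), (basicOpen_res _ _).le.trans inf_le_right,
    (mem_basicOpen_res (hW i) _ hi).mpr hx, ?_⟩
  have h2 := (h i k).2 l
  simpa only [map_mul, res_pl, res_res] using h2

theorem iSup_preimage {B κ : Type} [CommRing B] {E : Set (MvPolynomial κ B)} (𝒜 : Atlas B κ E)
    {T : Scheme.{0}} (c : T ⟶ 𝒜.C) : ⨆ k, c ⁻¹ᵁ 𝒜.Dk k = ⊤ := by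
  rw [← Scheme.Hom.preimage_iSup, 𝒜.cover]
  rfl

theorem res_comp_alg {A : Type} [CommRing A] {C : Scheme.{0}} (p : C ⟶ Spec (.of A))
    {U V : C.Opens} (h : V ≤ U) : (res h).comp (alg p U) = alg p V :=
  RingHom.ext fun a => res_alg p h a

theorem pl_comp_alg {A : Type} [CommRing A] {T C : Scheme.{0}} (c : T ⟶ C)
    (p : C ⟶ Spec (.of A)) {U : C.Opens} {V : T.Opens} (h : V ≤ c ⁻¹ᵁ U) :
    (pl c h).comp (alg p U) = alg (c ≫ p) V :=
  RingHom.ext fun a => pl_alg c p h a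

theorem map_res_res {C : Scheme.{0}} {m n : Type} {U V W : C.Opens} (h : V ≤ U) (h' : W ≤ V)
    (g : Matrix m n Γ(C, U)) : (g.map (res h)).map (res h') = g.map (res (h'.trans h)) := by
  ext i j
  simp only [map_apply, res_res]

variable {𝒜 : Atlas (BB D) (Option (Fin (D + 1))) (Eqs D)}

/-- The action on points of the projective model. -/
theorem exists_act (R : RepAPI 𝒜) {T : Scheme.{0}} (c : T ⟶ 𝒜.C)
    {g : Matrix (Fin (D + 1)) (Fin (D + 1)) Γ(T, ⊤)} (hg : Fix g) :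
    ∃ c₁ : T ⟶ 𝒜.C, pb (c₁ ≫ 𝒜.π) = mv g (pb (c ≫ 𝒜.π)) ∧ ∀ (O : T.Opens) y, 𝒜.Rep c O y →
      𝒜.Rep c₁ O (actv (g.map (res le_top)) (mat (alg (c ≫ 𝒜.π) O)) y) := by
  obtain ⟨p, hp⟩ := exists_pb (mv g (pb (c ≫ 𝒜.π)))
  have hm : ∀ O : T.Opens, mat (alg p O) = low (g.map (res (le_top : O ≤ ⊤))) *
      mat (alg (c ≫ 𝒜.π) O) * (g.map (res (le_top : O ≤ ⊤)))⁻¹ := fun O => by
    rw [alg, hp, comp_mv hg, mat_mv]
    rfl
  have hr : ∀ {O O' : T.Opens} (e : O' ≤ O) (y : Option (Fin (D + 1)) → Γ(T, O)),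
      (fun k => res e (actv (g.map (res le_top)) (mat (alg (c ≫ 𝒜.π) O)) y k)) =
        actv (g.map (res le_top)) (mat (alg (c ≫ 𝒜.π) O')) fun k => res e (y k) := by
    intro O O' e y
    rw [actv_map, map_res_res, mat_map, res_comp_alg]
  have hx : ∀ {O : T.Opens} {y y' : Option (Fin (D + 1)) → Γ(T, O)}, 𝒜.Rep c O y → 𝒜.Rep c O y' →
      Cross (actv (g.map (res le_top)) (mat (alg (c ≫ 𝒜.π) O)) y)
        (actv (g.map (res le_top)) (mat (alg (c ≫ 𝒜.π) O)) y') := fun h h' =>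
    cross_map (R.cross h h') _ (actv_smul _ _)
  obtain ⟨c₁, h1, h2⟩ := R.glue p (fun k => c ⁻¹ᵁ 𝒜.Dk k)
    (fun k => actv (g.map (res le_top)) (mat (alg (c ≫ 𝒜.π) _)) fun l => pl c le_rfl (𝒜.Y k l))
    (iSup_preimage 𝒜 c) (fun k => unimod_actv (R.unimod (R.self c k)) (fix_map hg _) _)
    (fun k => by
      rw [eqs_iff, hm]
      exact eqs_actv (inP_of_fix (fix_map hg _)) ((eqs_iff _ _).mp (R.eqs (R.self c k))))
    (fun k l => by
      rw [hr, hr]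
      exact hx (R.restr _ (R.self c k)) (R.restr _ (R.self c l)))
  refine ⟨c₁, by rw [h1, hp], fun O y hy => ?_⟩
  refine rep_of_cover (fun k => O ⊓ c ⁻¹ᵁ 𝒜.Dk k) (fun _ => inf_le_left) ?_ fun k => ?_
  · rw [← inf_iSup_eq, iSup_preimage, inf_top_eq]
  · have h3 := R.restr (inf_le_right : O ⊓ c ⁻¹ᵁ 𝒜.Dk k ≤ _) (h2 k)
    rw [hr] at h3 ⊢
    exact R.ofCross h3 (unimod_actv (R.unimod (R.restr _ hy)) (fix_map hg _) _)
      (hx (R.restr _ (R.self c k)) (R.restr _ hy))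

theorem tails_mv {T : Scheme.{0}} {p p' : T ⟶ Spec (.of (BB D))}
    {g : Matrix (Fin (D + 1)) (Fin (D + 1)) Γ(T, ⊤)} (hg : Fix g) (h : pb p' = mv g (pb p))
    {x : T} (hx : p x ∈ Tails ℂ D 0) : p' x ∈ Tails ℂ D 0 := by
  obtain ⟨K, _, _, ψ, hψ⟩ := exists_pt (U := ⊤) (x := x) trivial
  rw [mem_tails_pt _ hψ] at hx ⊢
  rw [h, comp_mv hg, mat_mv]
  exact eig_act (inP_of_fix (fix_map hg ψ)) hx

theorem exists_sec (R : RepAPI 𝒜) {T : Scheme.{0}} (p : T ⟶ Spec (.of (BB D)))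
    (hp : ∀ x, p x ∈ Tails ℂ D 0) (i : Fin 3) :
    ∃ s : T ⟶ 𝒜.C, s ≫ 𝒜.π = p ∧ 𝒜.Rep s ⊤ (sv (mat (pb p)) i) := by
  have ha : alg p ⊤ = pb p := RingHom.ext (alg_top p)
  obtain ⟨s, h1, h2⟩ := R.glue p (fun _ : Unit => ⊤) (fun _ => sv (mat (pb p)) i) iSup_const
    (fun _ => unimod_iff.mpr fun x hx => by
      obtain ⟨K, _, _, ψ, hψ⟩ := exists_pt hx
      by_contra h
      refine sv_ne_zero ((mem_tails_pt p hψ).mp (hp x)) i ?_
      rw [← mat_map, ← sv_map]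
      exact funext fun k => (hψ _).mpr fun h' => h ⟨k, h'⟩)
    (fun _ => by
      rw [eqs_iff, ha]
      exact eqs_of_secCond (secCond_sv _ i))
    (fun _ _ k l => mul_comm _ _)
  exact ⟨s, h1, h2 ()⟩

/-- The open locus of curves with tails. -/
def UT (D : ℕ) : (Spec (.of (BB D))).Opens := ⟨Tails ℂ D 0, isOpen_tails⟩

theorem range_UT : Set.range (UT D).ι = Tails ℂ D 0 := Scheme.Opens.range_ι _

theorem mem_UT (x : UT D) : (UT D).ι x ∈ Tails ℂ D 0 := range_UT.le ⟨x, rfl⟩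

/-- The universal family. -/
noncomputable def fam (R : RepAPI 𝒜) : Fam (UT D) where
  C := pullback 𝒜.π (UT D).ι
  π := pullback.snd _ _
  σ i := pullback.lift (exists_sec R _ mem_UT i).choose (𝟙 _)
    (by rw [(exists_sec R _ mem_UT i).choose_spec.1, Category.id_comp])
  sec i := pullback.lift_snd _ _ _

/-- The open immersion into the projective model. -/
noncomputable def kap (R : RepAPI 𝒜) : (fam R).C ⟶ 𝒜.C := pullback.fst _ _

theorem kap_sq (R : RepAPI 𝒜) : IsPullback (kap R) (fam R).π 𝒜.π (UT D).ι :=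
  IsPullback.of_hasPullback _ _

theorem rep_sec (R : RepAPI 𝒜) (i : Fin 3) :
    𝒜.Rep ((fam R).σ i ≫ kap R) ⊤ (sv (mat (pb (UT D).ι)) i) := by
  have h : (fam R).σ i ≫ kap R = (exists_sec R _ mem_UT i).choose := pullback.lift_fst _ _ _
  rw [h]
  exact (exists_sec R _ mem_UT i).choose_spec.2

theorem exists_act_fam (R : RepAPI 𝒜) {T : Scheme.{0}} (c : T ⟶ (fam R).C)
    {g : Matrix (Fin (D + 1)) (Fin (D + 1)) Γ(T, ⊤)} (hg : Fix g) :
    ∃ c₁ : T ⟶ (fam R).C, pb (c₁ ≫ kap R ≫ 𝒜.π) = mv g (pb (c ≫ kap R ≫ 𝒜.π)) ∧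
      ∀ (O : T.Opens) y, 𝒜.Rep (c ≫ kap R) O y → 𝒜.Rep (c₁ ≫ kap R) O
        (actv (g.map (res le_top)) (mat (alg (c ≫ kap R ≫ 𝒜.π) O)) y) := by
  obtain ⟨c₁, h1, h2⟩ := exists_act R (c ≫ kap R) hg
  rw [Category.assoc] at h1 h2
  have h3 : Set.range (c₁ ≫ 𝒜.π) ⊆ Set.range (UT D).ι := by
    rintro _ ⟨x, rfl⟩
    rw [range_UT]
    refine tails_mv hg h1 ?_
    rw [(kap_sq R).w, ← Category.assoc, Scheme.Hom.comp_apply]
    exact mem_UT _
  have h4 : (kap_sq R).lift c₁ (IsOpenImmersion.lift _ _ h3)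
      (IsOpenImmersion.lift_fac _ _ h3).symm ≫ kap R = c₁ := IsPullback.lift_fst _ _ _ _
  refine ⟨_, ?_, fun O y hy => h4.symm ▸ h2 O y hy⟩
  rw [← Category.assoc, h4, h1]

open Classical in
/-- The action on the universal family. -/
noncomputable def actF (R : RepAPI 𝒜) {T : Scheme.{0}} (c : T ⟶ (fam R).C)
    (g : Matrix (Fin (D + 1)) (Fin (D + 1)) Γ(T, ⊤)) : T ⟶ (fam R).C :=
  if hg : Fix g then (exists_act_fam R c hg).choose else c

theorem actF_base (R : RepAPI 𝒜) {T : Scheme.{0}} (c : T ⟶ (fam R).C)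
    {g : Matrix (Fin (D + 1)) (Fin (D + 1)) Γ(T, ⊤)} (hg : Fix g) :
    pb (actF R c g ≫ kap R ≫ 𝒜.π) = mv g (pb (c ≫ kap R ≫ 𝒜.π)) := by
  rw [actF, dif_pos hg]
  exact (exists_act_fam R c hg).choose_spec.1

theorem actF_rep (R : RepAPI 𝒜) {T : Scheme.{0}} (c : T ⟶ (fam R).C)
    {g : Matrix (Fin (D + 1)) (Fin (D + 1)) Γ(T, ⊤)} (hg : Fix g) {O : T.Opens} {y}
    (hy : 𝒜.Rep (c ≫ kap R) O y) : 𝒜.Rep (actF R c g ≫ kap R) O
      (actv (g.map (res le_top)) (mat (alg (c ≫ kap R ≫ 𝒜.π) O)) y) := by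
  rw [actF, dif_pos hg]
  exact (exists_act_fam R c hg).choose_spec.2 O y hy

theorem fam_ext (R : RepAPI 𝒜) {T : Scheme.{0}} {c c' : T ⟶ (fam R).C} {ι : Type}
    (O : ι → T.Opens) (y : ∀ i, Option (Fin (D + 1)) → Γ(T, O i))
    (hb : pb (c ≫ kap R ≫ 𝒜.π) = pb (c' ≫ kap R ≫ 𝒜.π)) (hO : iSup O = ⊤)
    (h : ∀ i, 𝒜.Rep (c ≫ kap R) (O i) (y i)) (h' : ∀ i, 𝒜.Rep (c' ≫ kap R) (O i) (y i)) :
    c = c' := by
  have h1 := hom_ext_pb hb
  refine (kap_sq R).hom_ext (R.ext O y (by simpa only [Category.assoc] using h1) hO h h') ?_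
  rw [← cancel_mono (UT D).ι, Category.assoc, Category.assoc, ← (kap_sq R).w, h1]

theorem pb_comp' {A : Type} [CommRing A] {T C : Scheme.{0}} (c : T ⟶ C) (p : C ⟶ Spec (.of A)) :
    pb (c ≫ p) = c.appTop.hom.comp (pb p) :=
  RingHom.ext (pb_comp c p)

theorem mat_alg_actF (R : RepAPI 𝒜) {T : Scheme.{0}} (c : T ⟶ (fam R).C)
    {g : Matrix (Fin (D + 1)) (Fin (D + 1)) Γ(T, ⊤)} (hg : Fix g) (O : T.Opens) :
    mat (alg (actF R c g ≫ kap R ≫ 𝒜.π) O) = low (g.map (res (le_top : O ≤ ⊤))) *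
      mat (alg (c ≫ kap R ≫ 𝒜.π) O) * (g.map (res (le_top : O ≤ ⊤)))⁻¹ := by
  rw [alg, actF_base R c hg, comp_mv hg, mat_mv]
  rfl

theorem isAction (R : RepAPI 𝒜) : IsAction (UT D).ι (fam R) (actF R) where
  nat {T' T} h c g hg := by
    refine fam_ext R (fun k => h ⁻¹ᵁ ((c ≫ kap R) ⁻¹ᵁ 𝒜.Dk k)) _ ?_ ?_
      (fun k => actF_rep R _ (fix_map hg _) (Category.assoc h c _ ▸
        R.pull h le_rfl (R.self (c ≫ kap R) k))) fun k => ?_
    · rw [actF_base R _ (fix_map hg _), Category.assoc, Category.assoc, pb_comp' h, pb_comp' h,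
        actF_base R _ hg, comp_mv hg]
    · rw [← Scheme.Hom.preimage_iSup, iSup_preimage]
      rfl
    · have h1 := R.pull h le_rfl (actF_rep R c hg (R.self (c ≫ kap R) k))
      rw [actv_map, mat_map, pl_comp_alg] at h1
      have h2 : (g.map (res (le_top : (c ≫ kap R) ⁻¹ᵁ 𝒜.Dk k ≤ ⊤))).map (pl h le_rfl) =
          (g.map h.appTop.hom).map (res le_top) := by
        ext i j
        simp only [map_apply, pl_res, ← pl_top, res_pl]
      rw [h2] at h1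
      simpa only [Category.assoc] using h1
  one {T} c := by
    refine fam_ext R (fun k => (c ≫ kap R) ⁻¹ᵁ 𝒜.Dk k) _ ?_ (iSup_preimage 𝒜 _)
      (fun k => ?_) fun k => R.self (c ≫ kap R) k
    · rw [actF_base R _ fix_one, mv_one]
    · have h1 := actF_rep R c fix_one (R.self (c ≫ kap R) k)
      rwa [Matrix.map_one _ (map_zero _) (map_one _), actv_one] at h1
  mul {T} c g g' hg hg' := by
    refine fam_ext R (fun k => (c ≫ kap R) ⁻¹ᵁ 𝒜.Dk k) _ ?_ (iSup_preimage 𝒜 _)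
      (fun k => ?_) fun k => actF_rep R c (fix_mul hg' hg) (R.self (c ≫ kap R) k)
    · rw [actF_base R _ hg', actF_base R _ hg, actF_base R _ (fix_mul hg' hg), mv_mv _ _ hg']
    · have h1 := actF_rep R _ hg' (actF_rep R c hg (R.self (c ≫ kap R) k))
      rwa [mat_alg_actF R c hg, actv_actv (inP_of_fix (fix_map hg _)), ← Matrix.map_mul] at h1
  base {T} c g hg := by
    rw [← (kap_sq R).w]
    exact actF_base R c hg
  sec {T} x g i hg := by
    have h0 : ∀ z : T ⟶ UT D, (z ≫ (fam R).σ i) ≫ kap R ≫ 𝒜.π = z ≫ (UT D).ι := fun z => by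
      rw [(kap_sq R).w, Category.assoc, ← Category.assoc ((fam R).σ i), (fam R).sec,
        Category.id_comp]
    have h1 : ∀ z : T ⟶ UT D, 𝒜.Rep ((z ≫ (fam R).σ i) ≫ kap R) ⊤
        (sv (mat (alg (z ≫ (UT D).ι) ⊤)) i) := fun z => by
      have h2 := R.pull z (O' := ⊤) le_top (rep_sec R i)
      rw [sv_map, mat_map, ← (RingHom.ext (alg_top _) : alg (UT D).ι ⊤ = _), pl_comp_alg] at h2
      simpa only [Category.assoc] using h2
    have h2 := actF_rep R _ hg (h1 x)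
    have h3 := secCond_actv (inP_of_fix (fix_map hg (res (le_top : (⊤ : T.Opens) ≤ ⊤))))
      (secCond_sv (mat (alg (x ≫ (UT D).ι) ⊤)) i)
    rw [h0] at h2
    have h4 := mat_alg_actF R (x ≫ (fam R).σ i) hg ⊤
    rw [h0, (kap_sq R).w, ← Category.assoc] at h4
    rw [← h4] at h3
    rw [← Category.assoc]
    refine fam_ext R (fun _ : Unit => ⊤) _ ?_ iSup_const
      (fun _ => R.ofCross (h1 _) (R.unimod h2) (cross_sv h3)) fun _ => h2
    rw [h0, (kap_sq R).w, Category.assoc]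

theorem univ : SUniv := fun D _ R =>
  ⟨{ X := UT D
     ι := (UT D).ι
     oi := inferInstance
     range := range_UT
     F := fam R
     κ := kap R
     pb_sq := kap_sq R
     a := actF R
     action := isAction R
     rep := fun c _ _ _ hg hy => actF_rep R c hg hy
     sec := fun i => ⟨_, rep_sec R i, secCond_sv _ i⟩ }⟩

end Pool.Agent.MP_52bf41_ag.H53
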