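import Pool.Agent.MP_52bf41_ag.H12.Spec

/-! Linear algebra for the universal family: the action on homogeneous coordinates, cofactor
vectors and the three marked points. -/

open Matrix

namespace Pool.Agent.MP_52bf41_ag.H53

open H1 H12

variable {D : ℕ} {R R' : Type} [CommRing R] [CommRing R']

theorem cross_symm {κ : Type} {y y' : κ → R} (h : Cross y y') : Cross y' y := fun k l => by
  rw [mul_comm, h l k, mul_comm]

theorem cross_map {κ κ' : Type} {y y' : κ → R} (h : Cross y y') (L : (κ → R) → κ' → R)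
    (hL : ∀ (r : R) z, L (r • z) = r • L z) : Cross (L y) (L y') := by
  have h1 : ∀ k m, y k * L y' m = y' k * L y m := fun k m => by
    have h2 : y k • y' = y' k • y := funext fun l => by
      simp only [Pi.smul_apply, smul_eq_mul, h k l, mul_comm]
    have h3 := congrFun (congrArg L h2) m
    rwa [hL, hL] at h3
  intro m n
  have h2 : L y' n • y = L y n • y' := funext fun k => by
    simp only [Pi.smul_apply, smul_eq_mul]
    rw [mul_comm, h1, mul_comm]
  have h3 := congrFun (congrArg L h2) m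
  rw [hL, hL] at h3
  simp only [Pi.smul_apply, smul_eq_mul] at h3
  rw [mul_comm, h3]

theorem cross_hom {κ : Type} {y y' : κ → R} (h : Cross y y') (f : R →+* R') :
    Cross (fun k => f (y k)) fun k => f (y' k) := fun k l => by
  rw [← map_mul, ← map_mul, h]

theorem inP_of_fix {g : Matrix (Fin (D + 1)) (Fin (D + 1)) R} (h : Fix g) : InP g g⁻¹ :=
  ⟨mul_nonsing_inv _ h.1, h.2⟩

theorem fix_of_inP {g g' : Matrix (Fin (D + 1)) (Fin (D + 1)) R} (h : InP g g') : Fix g :=
  ⟨isUnit_det_of_right_inverse h.1, h.2⟩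

theorem inv_eq_of_inP {g g' : Matrix (Fin (D + 1)) (Fin (D + 1)) R} (h : InP g g') : g⁻¹ = g' :=
  inv_eq_right_inv h.1

theorem fix_map {g : Matrix (Fin (D + 1)) (Fin (D + 1)) R} (h : Fix g) (f : R →+* R') :
    Fix (g.map f) :=
  fix_of_inP ((inP_of_fix h).map f)

theorem inv_map {g : Matrix (Fin (D + 1)) (Fin (D + 1)) R} (h : Fix g) (f : R →+* R') :
    (g.map f)⁻¹ = g⁻¹.map f :=
  inv_eq_of_inP ((inP_of_fix h).map f)

theorem fix_one : Fix (1 : Matrix (Fin (D + 1)) (Fin (D + 1)) R) := fix_of_inP InP.one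

theorem fix_mul {g g' : Matrix (Fin (D + 1)) (Fin (D + 1)) R} (h : Fix g) (h' : Fix g') :
    Fix (g * g') :=
  fix_of_inP ((inP_of_fix h).mul (inP_of_fix h'))

/-- The lower right block. -/
abbrev low (g : Matrix (Fin (D + 1)) (Fin (D + 1)) R) : Matrix (Fin D) (Fin D) R :=
  g.submatrix Fin.succ Fin.succ

theorem mulVec_succ {g : Matrix (Fin (D + 1)) (Fin (D + 1)) R} (h : Col g) (z : Fin (D + 1) → R)
    (i : Fin D) : (g *ᵥ z) i.succ = (low g *ᵥ Fin.tail z) i := by
  simp only [mulVec, dotProduct, Fin.sum_univ_succ, h i.succ, submatrix_apply, Fin.tail]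
  rw [Matrix.one_apply_ne (Fin.succ_ne_zero i)]
  simp

theorem vv_map (f : R →+* R') (M : Matrix (Fin D) (Fin (D + 1)) R)
    (y : Option (Fin (D + 1)) → R) (a : Fin (D + 1)) :
    f (vv M y a) = vv (M.map f) (fun k => f (y k)) a := by
  refine Fin.cases rfl (fun i => ?_) a
  simp only [vv, Fin.cons_succ]
  exact RingHom.map_mulVec f M _ i

theorem actv_map (f : R →+* R') (g : Matrix (Fin (D + 1)) (Fin (D + 1)) R)
    (M : Matrix (Fin D) (Fin (D + 1)) R) (y : Option (Fin (D + 1)) → R) :
    (fun k => f (actv g M y k)) = actv (g.map f) (M.map f) fun k => f (y k) := by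
  funext k
  rcases k with _ | a
  · simp only [actv]
    rw [RingHom.map_mulVec]
    congr 1
    funext b
    exact vv_map f M y b
  · exact RingHom.map_mulVec f g _ a

theorem vv_smul (M : Matrix (Fin D) (Fin (D + 1)) R) (r : R) (y : Option (Fin (D + 1)) → R) :
    vv M (r • y) = r • vv M y := by
  funext a
  refine Fin.cases rfl (fun i => ?_) a
  simp only [vv, Fin.cons_succ, Pi.smul_apply]
  exact congrFun (mulVec_smul M r fun a => y (some a)) i

theorem actv_smul (g : Matrix (Fin (D + 1)) (Fin (D + 1)) R) (M : Matrix (Fin D) (Fin (D + 1)) R)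
    (r : R) (y : Option (Fin (D + 1)) → R) : actv g M (r • y) = r • actv g M y := by
  funext k
  rcases k with _ | a
  · simp only [actv, vv_smul, mulVec_smul, Pi.smul_apply]
  · exact congrFun (mulVec_smul g r fun a => y (some a)) a

theorem actv_some (g : Matrix (Fin (D + 1)) (Fin (D + 1)) R) (M : Matrix (Fin D) (Fin (D + 1)) R)
    (y : Option (Fin (D + 1)) → R) :
    (fun a => actv g M y (some a)) = g *ᵥ fun a => y (some a) := rfl

theorem vv_actv {g g' : Matrix (Fin (D + 1)) (Fin (D + 1)) R} (h : InP g g')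
    (M : Matrix (Fin D) (Fin (D + 1)) R) (y : Option (Fin (D + 1)) → R) :
    vv (low g * M * g') (actv g M y) = g *ᵥ vv M y := by
  funext a
  refine Fin.cases rfl (fun i => ?_) a
  rw [mulVec_succ h.2]
  simp only [vv, Fin.cons_succ, Fin.tail_cons, actv_some]
  rw [mulVec_mulVec, Matrix.mul_assoc, h.mul_eq', Matrix.mul_one, mulVec_mulVec]

theorem actv_actv {g g' : Matrix (Fin (D + 1)) (Fin (D + 1)) R} (h : InP g g')
    (g₂ : Matrix (Fin (D + 1)) (Fin (D + 1)) R) (M : Matrix (Fin D) (Fin (D + 1)) R)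
    (y : Option (Fin (D + 1)) → R) :
    actv g₂ (low g * M * g') (actv g M y) = actv (g₂ * g) M y := by
  funext k
  rcases k with _ | a
  · change (g₂ *ᵥ vv _ _) 0 = ((g₂ * g) *ᵥ vv M y) 0
    rw [vv_actv h, mulVec_mulVec]
  · change (g₂ *ᵥ (g *ᵥ fun a => y (some a))) a = ((g₂ * g) *ᵥ fun a => y (some a)) a
    rw [mulVec_mulVec]

theorem actv_one (M : Matrix (Fin D) (Fin (D + 1)) R) (y : Option (Fin (D + 1)) → R) :
    actv 1 M y = y := by
  funext k
  rcases k with _ | a
  · change ((1 : Matrix _ _ R) *ᵥ vv M y) 0 = _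
    rw [one_mulVec]
    rfl
  · change ((1 : Matrix _ _ R) *ᵥ fun a => y (some a)) a = _
    rw [one_mulVec]

theorem eq_zero_of_actv {g g' : Matrix (Fin (D + 1)) (Fin (D + 1)) R} (h : InP g g')
    {M : Matrix (Fin D) (Fin (D + 1)) R} {y : Option (Fin (D + 1)) → R} (h0 : actv g M y = 0) :
    y = 0 := by
  have h1 := actv_actv h g' M y
  rw [h.mul_eq', actv_one, h0, ← zero_smul R (0 : Option (Fin (D + 1)) → R), actv_smul,
    zero_smul] at h1
  exact h1.symm

theorem mat_map (φ : BB D →+* R) (f : R →+* R') : (mat φ).map f = mat (f.comp φ) := rfl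

theorem eqs_iff (φ : BB D →+* R) (y : Option (Fin (D + 1)) → R) :
    (∀ e ∈ Eqs D, MvPolynomial.eval₂Hom φ y e = 0) ↔ Cross (fun a => y (some a)) (vv (mat φ) y) := by
  have h1 : ∀ a, MvPolynomial.eval₂Hom φ y (vv (mat (MvPolynomial.C : BB D →+* _))
      MvPolynomial.X a) = vv (mat φ) y a := fun a => by
    rw [vv_map, mat_map]
    simp only [MvPolynomial.eval₂Hom_X']
    congr 2
    ext <;> simp
  constructor
  · intro h a b
    have := h _ ⟨a, b, rfl⟩
    rwa [map_sub, map_mul, map_mul, h1, h1, MvPolynomial.eval₂Hom_X', MvPolynomial.eval₂Hom_X',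
      sub_eq_zero] at this
  · rintro h e ⟨a, b, rfl⟩
    rw [map_sub, map_mul, map_mul, h1, h1, MvPolynomial.eval₂Hom_X', MvPolynomial.eval₂Hom_X',
      sub_eq_zero]
    exact h a b

theorem eqs_actv {g g' : Matrix (Fin (D + 1)) (Fin (D + 1)) R} (h : InP g g')
    {M : Matrix (Fin D) (Fin (D + 1)) R} {y : Option (Fin (D + 1)) → R}
    (hy : Cross (fun a => y (some a)) (vv M y)) :
    Cross (fun a => actv g M y (some a)) (vv (low g * M * g') (actv g M y)) := by
  rw [vv_actv h, actv_some]
  exact cross_map hy _ fun r z => mulVec_smul g r z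

/-- The base point moved by the group. -/
noncomputable def mv (g : Matrix (Fin (D + 1)) (Fin (D + 1)) R) (φ : BB D →+* R) : BB D →+* R :=
  MvPolynomial.eval₂Hom (φ.comp MvPolynomial.C) (act g g⁻¹ fun v => φ (MvPolynomial.X v))

theorem mv_X (g : Matrix (Fin (D + 1)) (Fin (D + 1)) R) (φ : BB D →+* R) :
    (fun v => mv g φ (MvPolynomial.X v)) = act g g⁻¹ fun v => φ (MvPolynomial.X v) := by
  funext v
  simp [mv]

theorem mv_C (g : Matrix (Fin (D + 1)) (Fin (D + 1)) R) (φ : BB D →+* R) (c : ℂ) :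
    mv g φ (MvPolynomial.C c) = φ (MvPolynomial.C c) := by
  simp [mv]

theorem mat_mv (g : Matrix (Fin (D + 1)) (Fin (D + 1)) R) (φ : BB D →+* R) :
    mat (mv g φ) = low g * mat φ * g⁻¹ := by
  rw [mat, mv_X, pencil_act]
  rfl

theorem comp_mv {g : Matrix (Fin (D + 1)) (Fin (D + 1)) R} (h : Fix g) (φ : BB D →+* R)
    (f : R →+* R') : f.comp (mv g φ) = mv (g.map f) (f.comp φ) := by
  refine MvPolynomial.ringHom_ext (fun c => ?_) fun v => ?_
  · rw [RingHom.comp_apply, mv_C, mv_C, RingHom.comp_apply]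
  · rw [RingHom.comp_apply, congrFun (mv_X _ _) v, congrFun (mv_X _ _) v, inv_map h]
    exact congrFun (act_map f g g⁻¹ _) v

theorem mv_one (φ : BB D →+* R) : mv 1 φ = φ := by
  refine MvPolynomial.ringHom_ext (fun c => mv_C _ _ c) fun v => ?_
  rw [congrFun (mv_X _ _) v, inv_one, act_one]

theorem mv_mv (g g' : Matrix (Fin (D + 1)) (Fin (D + 1)) R) (h' : Fix g') (φ : BB D →+* R) :
    mv g' (mv g φ) = mv (g' * g) φ := by
  refine MvPolynomial.ringHom_ext (fun c => by rw [mv_C, mv_C, mv_C]) fun v => ?_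
  rw [congrFun (mv_X _ _) v, congrFun (mv_X _ _) v, mv_X, act_act h'.2, Matrix.mul_inv_rev]

theorem eig_act {K : Type} [Field K] {g g' : Matrix (Fin (D + 1)) (Fin (D + 1)) K} (h : InP g g')
    {M : Matrix (Fin D) (Fin (D + 1)) K} (hM : Eig M) : Eig (low g * M * g') := by
  obtain ⟨t, q, ht, ht', hq, hli⟩ := hM
  refine ⟨t, fun j => g *ᵥ q j, ht, ht', fun j i => ?_, ?_⟩
  · have h1 : M *ᵥ q j = t j • Fin.tail (q j) := funext fun i => (hq j i).symm
    rw [mulVec_mulVec, Matrix.mul_assoc, h.mul_eq', Matrix.mul_one, ← mulVec_mulVec, h1,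
      mulVec_smul]
    exact congrArg (t j * ·) (mulVec_succ h.2 _ i)
  · have h1 : (fun j => Fin.tail (g *ᵥ q j)) = (low g).mulVecLin ∘ fun j => Fin.tail (q j) :=
      funext fun j => funext fun i => mulVec_succ h.2 _ i
    have h2 : low g' * low g = 1 := by
      rw [← h.symm.2.low_mul, h.mul_eq', Matrix.submatrix_one _ (Fin.succ_injective D)]
    rw [h1]
    refine hli.map' _ (LinearMap.ker_eq_bot'.mpr fun z hz => ?_)
    have h3 := congrArg (low g' *ᵥ ·) hz
    simpa [mulVec_mulVec, h2] using h3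

/-- The matrix with the row `r` on top of `N`. -/
def top (r : Fin (D + 1) → R) (N : Matrix (Fin D) (Fin (D + 1)) R) :
    Matrix (Fin (D + 1)) (Fin (D + 1)) R :=
  Matrix.of (Fin.cons r fun i => N i : Fin (D + 1) → Fin (D + 1) → R)

/-- The vector of maximal minors. -/
noncomputable def cof (N : Matrix (Fin D) (Fin (D + 1)) R) (a : Fin (D + 1)) : R :=
  (top (Pi.single a 1) N).det

theorem adjugate_top (r : Fin (D + 1) → R) (N : Matrix (Fin D) (Fin (D + 1)) R)
    (a : Fin (D + 1)) : adjugate (top r N) a 0 = cof N a := by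
  rw [adjugate_apply, cof]
  congr 1
  ext i j
  refine Fin.cases ?_ (fun i => ?_) i
  · simp [top]
  · simp [top]

theorem top_mulVec_cof (r : Fin (D + 1) → R) (N : Matrix (Fin D) (Fin (D + 1)) R)
    (i : Fin (D + 1)) :
    (top r N *ᵥ cof N) i = (top r N).det * (1 : Matrix (Fin (D + 1)) (Fin (D + 1)) R) i 0 := by
  have h := congrFun (congrFun (mul_adjugate (top r N)) i) 0
  simp only [Matrix.mul_apply, adjugate_top, Matrix.smul_apply, smul_eq_mul] at h
  exact h

theorem mulVec_cof (N : Matrix (Fin D) (Fin (D + 1)) R) : N *ᵥ cof N = 0 := by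
  funext i
  have h := top_mulVec_cof 0 N i.succ
  rw [Matrix.one_apply_ne (Fin.succ_ne_zero i), mul_zero] at h
  exact h

theorem cross_cof {N : Matrix (Fin D) (Fin (D + 1)) R} {z : Fin (D + 1) → R} (h : N *ᵥ z = 0) :
    Cross z (cof N) := by
  intro a b
  have h1 : top (Pi.single a 1) N *ᵥ z = Pi.single 0 (z a) := by
    funext i
    refine Fin.cases ?_ (fun i => ?_) i
    · simp [top, mulVec]
    · rw [Pi.single_eq_of_ne (Fin.succ_ne_zero i)]
      exact congrFun h i
  have h2 := congrFun (congrArg (adjugate (top (Pi.single a 1) N) *ᵥ ·) h1) b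
  simp only [mulVec_mulVec, adjugate_mul, smul_mulVec, one_mulVec, mulVec_single, Pi.smul_apply,
    smul_eq_mul, col_apply, adjugate_top, MulOpposite.smul_eq_mul_unop, MulOpposite.unop_op] at h2
  rw [mul_comm, ← h2, mul_comm]
  rfl

theorem cof_map (f : R →+* R') (N : Matrix (Fin D) (Fin (D + 1)) R) (a : Fin (D + 1)) :
    f (cof N a) = cof (N.map f) a := by
  rw [cof, cof, RingHom.map_det]
  congr 1
  ext i j
  refine Fin.cases ?_ (fun i => ?_) i
  · simp [top, Pi.single_apply, apply_ite f]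
  · simp [top]

theorem cof_ne_zero {K : Type} [Field K] {N : Matrix (Fin D) (Fin (D + 1)) K}
    {Q : Matrix (Fin (D + 1)) (Fin D) K} (h : IsUnit (N * Q)) : cof N ≠ 0 := by
  have h1 : LinearIndependent K fun i => N i := by
    refine vecMul_injective_iff.mp fun c c' hc => ?_
    refine vecMul_injective_of_isUnit h ?_
    have := congrArg (· ᵥ* Q) hc
    simpa only [vecMul_vecMul] using this
  obtain ⟨r, hr⟩ := exists_linearIndependent_cons_of_lt_finrank h1 (by simp)
  have h2 : IsUnit (top r N) := linearIndependent_rows_iff_isUnit.mp hr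
  intro h0
  have h3 := top_mulVec_cof r N 0
  rw [h0, mulVec_zero, Matrix.one_apply_eq, mul_one] at h3
  exact ((isUnit_iff_isUnit_det _).mp h2).ne_zero h3.symm

/-- The matrix `M - l [0 | 1]`. -/
def sh (l : R) (M : Matrix (Fin D) (Fin (D + 1)) R) : Matrix (Fin D) (Fin (D + 1)) R :=
  M - l • (1 : Matrix (Fin (D + 1)) (Fin (D + 1)) R).submatrix Fin.succ id

theorem sh_mulVec (l : R) (M : Matrix (Fin D) (Fin (D + 1)) R) (z : Fin (D + 1) → R) :
    sh l M *ᵥ z = M *ᵥ z - l • Fin.tail z := by
  rw [sh, sub_mulVec, smul_mulVec]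
  congr 2
  funext i
  exact congrFun (one_mulVec z) i.succ

theorem sh_map (f : R →+* R') (l : R) (M : Matrix (Fin D) (Fin (D + 1)) R) :
    (sh l M).map f = sh (f l) (M.map f) := by
  ext i j
  simp [sh, Matrix.one_apply, apply_ite f]

theorem cof_sh_ne_zero {K : Type} [Field K] {M : Matrix (Fin D) (Fin (D + 1)) K} (hM : Eig M)
    {l : K} (hl : l = 0 ∨ l = 1) : cof (sh l M) ≠ 0 := by
  obtain ⟨t, q, -, ht', hq, hli⟩ := hM
  let Q : Matrix (Fin D) (Fin D) K := Matrix.of fun i j => q j i.succ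
  have hQ : IsUnit Q := linearIndependent_cols_iff_isUnit.mp hli
  have h1 : sh l M * (Matrix.of fun i j => q j i) = Q * diagonal fun j => t j - l := by
    ext i j
    have h2 : (sh l M * (Matrix.of fun i j => q j i)) i j = (sh l M *ᵥ q j) i := rfl
    rw [h2, sh_mulVec, mul_diagonal, Pi.sub_apply, ← hq]
    simp only [Q, Fin.tail, Pi.smul_apply, smul_eq_mul, of_apply]
    ring
  refine cof_ne_zero (Q := Matrix.of fun i j => q j i) ?_
  rw [h1]
  refine hQ.mul ((isUnit_iff_isUnit_det _).mpr ?_)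
  rw [det_diagonal, isUnit_iff_ne_zero, Finset.prod_ne_zero_iff]
  intro j _
  rcases hl with rfl | rfl
  · simpa using (ht' j).1
  · exact sub_ne_zero.mpr (ht' j).2

/-- The point of the curve over `z = l`. -/
noncomputable def pv (l : R) (M : Matrix (Fin D) (Fin (D + 1)) R) : Option (Fin (D + 1)) → R :=
  fun k => k.elim (l * cof (sh l M) 0) (cof (sh l M))

theorem vv_pv (l : R) (M : Matrix (Fin D) (Fin (D + 1)) R) :
    vv M (pv l M) = l • fun a => pv l M (some a) := by
  funext a
  refine Fin.cases rfl (fun i => ?_) a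
  have h := congrFun (mulVec_cof (sh l M)) i
  rw [sh_mulVec, Pi.sub_apply, Pi.zero_apply, sub_eq_zero] at h
  exact h

theorem cross_pv {l : R} {M : Matrix (Fin D) (Fin (D + 1)) R} {y : Option (Fin (D + 1)) → R}
    (h : vv M y = l • fun a => y (some a)) : Cross (pv l M) y := by
  have h0 : y none = l * y (some 0) := congrFun h 0
  have h1 : sh l M *ᵥ (fun a => y (some a)) = 0 := by
    rw [sh_mulVec, sub_eq_zero]
    funext i
    exact congrFun h i.succ
  have h2 := cross_map (cross_cof h1) (fun z (k : Option (Fin (D + 1))) => k.elim (l * z 0) z)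
    fun r z => funext fun k => by
      rcases k with _ | a
      · simp [mul_left_comm]
      · simp
  have h3 : (fun k : Option (Fin (D + 1)) => k.elim (l * y (some 0)) fun a => y (some a)) = y :=
    funext fun k => by
      rcases k with _ | a
      · exact h0.symm
      · rfl
  rw [h3] at h2
  exact cross_symm h2

/-- Homogeneous coordinates of the three marked points. -/
noncomputable def sv (M : Matrix (Fin D) (Fin (D + 1)) R) : Fin 3 → Option (Fin (D + 1)) → R :=
  ![pv 0 M, pv 1 M, fun k => k.elim 1 0]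

theorem pv_map (f : R →+* R') (l : R) (M : Matrix (Fin D) (Fin (D + 1)) R) :
    (fun k => f (pv l M k)) = pv (f l) (M.map f) := by
  funext k
  rcases k with _ | a
  · simp [pv, cof_map, sh_map]
  · simp [pv, cof_map, sh_map]

theorem sv_map (f : R →+* R') (M : Matrix (Fin D) (Fin (D + 1)) R) (i : Fin 3) :
    (fun k => f (sv M i k)) = sv (M.map f) i := by
  fin_cases i
  · simpa [sv] using pv_map f 0 M
  · simpa [sv] using pv_map f 1 M
  · funext k
    rcases k with _ | a <;> simp [sv]

theorem secCond_sv (M : Matrix (Fin D) (Fin (D + 1)) R) (i : Fin 3) : SecCond M (sv M i) i := by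
  fin_cases i
  · simpa [SecCond, sv] using vv_pv 0 M
  · simpa [SecCond, sv] using vv_pv 1 M
  · change (fun a => (Option.some a).elim (1 : R) 0) = 0
    rfl

theorem cross_sv {M : Matrix (Fin D) (Fin (D + 1)) R} {y : Option (Fin (D + 1)) → R} {i : Fin 3}
    (h : SecCond M y i) : Cross (sv M i) y := by
  fin_cases i
  · exact cross_pv (l := 0) (by simpa [SecCond] using h)
  · exact cross_pv (l := 1) (by simpa [SecCond] using h)
  · have h1 : ∀ a, y (some a) = 0 := congrFun h
    rintro (_ | a) (_ | b) <;> simp [sv, h1]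

theorem eqs_of_secCond {M : Matrix (Fin D) (Fin (D + 1)) R} {y : Option (Fin (D + 1)) → R}
    {i : Fin 3} (h : SecCond M y i) : Cross (fun a => y (some a)) (vv M y) := by
  fin_cases i
  · have h1 : vv M y = 0 := h
    intro a b
    simp [h1]
  · have h1 : vv M y = fun a => y (some a) := h
    intro a b
    simp [h1, mul_comm]
  · have h1 : ∀ a, y (some a) = 0 := congrFun h
    intro a b
    simp [h1]

theorem secCond_actv {g g' : Matrix (Fin (D + 1)) (Fin (D + 1)) R} (hg : InP g g')
    {M : Matrix (Fin D) (Fin (D + 1)) R} {y : Option (Fin (D + 1)) → R} {i : Fin 3}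
    (h : SecCond M y i) : SecCond (low g * M * g') (actv g M y) i := by
  fin_cases i
  · have h1 : vv M y = 0 := h
    change vv _ _ = 0
    rw [vv_actv hg, h1, mulVec_zero]
  · have h1 : vv M y = fun a => y (some a) := h
    change vv _ _ = fun a => actv g M y (some a)
    rw [vv_actv hg, h1, actv_some]
  · have h1 : (fun a => y (some a)) = 0 := h
    change (fun a => actv g M y (some a)) = 0
    rw [actv_some, h1, mulVec_zero]

theorem sv_ne_zero {K : Type} [Field K] {M : Matrix (Fin D) (Fin (D + 1)) K} (hM : Eig M)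
    (i : Fin 3) : sv M i ≠ 0 := by
  intro h
  fin_cases i
  · exact cof_sh_ne_zero hM (Or.inl rfl) (funext fun a => congrFun h (some a))
  · exact cof_sh_ne_zero hM (Or.inr rfl) (funext fun a => congrFun h (some a))
  · exact one_ne_zero (congrFun h none)

theorem tails_iff {K : Type} [Field K] [IsAlgClosed K] (φ : BB D →+* K)
    {p : PrimeSpectrum (BB D)} (hφ : RingHom.ker φ = p.asIdeal) :
    p ∈ Tails ℂ D 0 ↔ Eig (mat φ) := by
  rw [mem_tails_iff, ← hφ, ← MvPolynomial.ker_map, RingHom.mem_ker]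
  have h1 : ∀ c : Fin D → K, MvPolynomial.eval c (MvPolynomial.map φ
      (phi ((pencil MvPolynomial.X).map MvPolynomial.C) MvPolynomial.X)) = phi (mat φ) c := by
    intro c
    rw [phi_map, phi_map, Matrix.map_map, Matrix.map_map]
    congr 1
    · ext i j
      simp [pencil, mat]
    · simp
  constructor
  · intro h
    by_contra h2
    refine h (MvPolynomial.funext fun c => ?_)
    rw [h1, map_zero]
    by_contra h3
    exact h2 (eig_of_phi h3)
  · intro h h0
    obtain ⟨c, hc⟩ := h.exists_phi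
    exact hc (by rw [← h1, h0, map_zero])

theorem isOpen_tails : IsOpen (Tails ℂ D 0) := by
  have h : Tails ℂ D 0 = ⋃ m, (PrimeSpectrum.basicOpen (MvPolynomial.coeff m
      (phi ((pencil MvPolynomial.X).map MvPolynomial.C)
        (MvPolynomial.X : Fin D → MvPolynomial (Fin D) (BB D)))) : Set _) := by
    ext p
    rw [mem_tails_iff, MvPolynomial.mem_map_C_iff]
    simp
  rw [h]
  exact isOpen_iUnion fun m => (PrimeSpectrum.basicOpen _).isOpen

end Pool.Agent.MP_52bf41_ag.H53
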